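import Pool.Agent.Results.MP_4467b5_nt.IsolatedZeros
import Pool.Agent.V35.WP

/-!
# Near almost every height all zeros right of the critical line lie in dense clusters

The starting theorem `IsolatedZeros` proves the density hypothesis for the zeros `ρ = β + iγ` of zeta for which the disc with
centre `1 + iγ` and radius `1 - β + δ` contains at most `η log T` zeros. Here: for almost every real `α` and all sequences
`v_k` (for instance `b ^ k`), for all large `k` there is no such zero with real part at least `σ` and ordinate at distance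
at most `v_k ^ θ` from `v_k α`, for all `θ < 2 σ - 1` (what the density hypothesis gives for all zeros), with a bound for the
dimension of the exceptional `α`.
-/

set_option autoImplicit false

open MeasureTheory Filter Topology

namespace Pool.Agent.Results.MP_4467b5_nt.IsolatedZerosInWindows

open Pool.Agent.V35.WM Pool.Agent.V35.WP Pool.Agent.Results.MP_4467b5_nt.IsolatedZeros

/-- the zeros of zeta with real part at least `σ` and positive ordinate `γ` which are not in a dense cluster: the disc with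
centre `1 + iγ` and radius `1 - β + δ` contains at most `η log γ` zeros -/
def Iso (σ δ η : ℝ) : Set ℂ :=
  {ρ : ℂ | riemannZeta ρ = 0 ∧ σ ≤ ρ.re ∧ 0 < ρ.im ∧ (count (near δ ρ) : ℝ) ≤ η * Real.log ρ.im}

theorem order_ne_top {s : ℂ} (hs : s ≠ 1) : analyticOrderAt riemannZeta s ≠ ⊤ := by
  have h1 : AnalyticOnNhd ℂ riemannZeta ({1}ᶜ : Set ℂ) := by
    intro z hz
    have : DifferentiableOn ℂ riemannZeta ({1}ᶜ : Set ℂ) := fun z hz =>
      (differentiableAt_riemannZeta hz).differentiableWithinAt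
    exact this.analyticAt (isOpen_compl_singleton.mem_nhds hz)
  have hpre : IsPreconnected ({1}ᶜ : Set ℂ) := by
    apply IsConnected.isPreconnected
    apply isConnected_compl_singleton_of_one_lt_rank
    rw [Complex.rank_real_complex]
    exact Cardinal.one_lt_two
  have h2 : analyticOrderAt riemannZeta 2 ≠ ⊤ := by
    have h3 : riemannZeta 2 ≠ 0 := riemannZeta_ne_zero_of_one_lt_re (by norm_num)
    rw [(h1 2 (by simp)).analyticOrderAt_eq_zero.2 h3]
    exact ENat.zero_ne_top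
  exact h1.analyticOrderAt_ne_top_of_isPreconnected hpre (by simp) hs h2

theorem one_le_order {s : ℂ} (hs : s ≠ 1) (h0 : riemannZeta s = 0) : 1 ≤ analyticOrderNatAt riemannZeta s := by
  have ha4 : AnalyticAt ℂ riemannZeta s := by
    have : DifferentiableOn ℂ riemannZeta ({1}ᶜ : Set ℂ) := fun z hz =>
      (differentiableAt_riemannZeta hz).differentiableWithinAt
    exact this.analyticAt (isOpen_compl_singleton.mem_nhds hs)
  have h2 : analyticOrderAt riemannZeta s ≠ 0 := ha4.analyticOrderAt_ne_zero.2 h0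
  have h3 := order_ne_top hs
  have h4 : analyticOrderNatAt riemannZeta s ≠ 0 := by
    intro h5
    apply h2
    rw [← Nat.cast_analyticOrderNatAt h3, h5]
    rfl
  exact Nat.one_le_iff_ne_zero.2 h4

lemma thin (ε δ : ℝ) (hε : 0 < ε) (hδ : 0 < δ) : ∃ η : ℝ, 0 < η ∧ ∀ σ : ℝ, 1 / 2 ≤ σ → σ ≤ 1 →
    Thin (Iso σ δ η) (fun ρ : ℂ => ρ.im) (2 * (1 - σ) + ε) := by
  obtain ⟨η, hη, C, hC, T₀, h⟩ := IsolatedZeros.result ε δ hε hδ
  refine ⟨η, hη, fun σ hσ hσ1 ε' hε' => ?_⟩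
  obtain ⟨e, he⟩ : ∃ e, e = 2 * (1 - σ) + ε := ⟨_, rfl⟩
  have he0 : 0 < e := by rw [he]; linarith
  obtain ⟨R, hR⟩ : ∃ R : ℝ, R = max T₀ 1 := ⟨_, rfl⟩
  have hR1 : 1 ≤ R := by rw [hR]; exact le_max_right _ _
  have hRT : T₀ ≤ R := by rw [hR]; exact le_max_left _ _
  rw [← he]
  refine ⟨C * R ^ e, fun X hX => ?_⟩
  have hX0 : 0 < X := by linarith
  have hT : T₀ ≤ R * X := hRT.trans (by nlinarith)
  have hXT : X ≤ R * X := by nlinarith
  have hcount := h (R * X) hT σ hσ hσ1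
  rw [← he] at hcount
  have hfin : {ρ : ℂ | ρ ∈ zeros σ (R * X) ∧ (count (near δ ρ) : ℝ) ≤ η * Real.log (R * X)}.Finite :=
    (zeros_finite σ (R * X)).subset fun ρ hρ => hρ.1
  have hsub : {ρ | ρ ∈ Iso σ δ η ∧ ‖ρ.im‖ ≤ X} ⊆
      {ρ : ℂ | ρ ∈ zeros σ (R * X) ∧ (count (near δ ρ) : ℝ) ≤ η * Real.log (R * X)} := by
    rintro ρ ⟨⟨h1, h2, h3, h4⟩, h5⟩
    rw [Real.norm_eq_abs] at h5
    have h6 : ρ.im ≤ R * X := (le_abs_self _).trans (h5.trans hXT)
    refine ⟨⟨h1, h2, h3, h6⟩, h4.trans ?_⟩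
    exact mul_le_mul_of_nonneg_left (Real.log_le_log h3 h6) hη.le
  have hcard : {ρ : ℂ | ρ ∈ zeros σ (R * X) ∧ (count (near δ ρ) : ℝ) ≤ η * Real.log (R * X)}.ncard ≤
      count {ρ : ℂ | ρ ∈ zeros σ (R * X) ∧ (count (near δ ρ) : ℝ) ≤ η * Real.log (R * X)} := by
    rw [Set.ncard_eq_toFinset_card _ hfin, count, finsum_mem_eq_finite_toFinset_sum _ hfin,
      Finset.card_eq_sum_ones]
    refine Finset.sum_le_sum fun ρ hρ => ?_
    obtain ⟨⟨h1, h2, h3, h4⟩, -⟩ := hfin.mem_toFinset.1 hρ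
    refine one_le_order ?_ h1
    rintro rfl
    simp at h3
  refine ⟨hfin.subset hsub, ?_⟩
  calc ({ρ | ρ ∈ Iso σ δ η ∧ ‖ρ.im‖ ≤ X}.ncard : ℝ)
      ≤ ({ρ : ℂ | ρ ∈ zeros σ (R * X) ∧ (count (near δ ρ) : ℝ) ≤ η * Real.log (R * X)}.ncard : ℝ) := by
        exact_mod_cast Set.ncard_le_ncard hsub hfin
    _ ≤ (count {ρ : ℂ | ρ ∈ zeros σ (R * X) ∧ (count (near δ ρ) : ℝ) ≤ η * Real.log (R * X)} : ℝ) := by
        exact_mod_cast hcard
    _ ≤ C * (R * X) ^ e := hcount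
    _ = C * R ^ e * X ^ e := by rw [Real.mul_rpow (by linarith) hX0.le]; ring
    _ ≤ C * R ^ e * X ^ (e + ε') :=
        mul_le_mul_of_nonneg_left (Real.rpow_le_rpow_of_exponent_le hX (by linarith)) (by positivity)

/-- **Theorem.** Let `ε, δ > 0`. There is `η > 0` such that for all `1/2 ≤ σ ≤ 1`, all sequences `v ≥ 1` of exponent of
convergence at most `τ ≥ 0` and all `θ < 1` there is a set `E` of real numbers of Hausdorff dimension at most
`(2 (1 - σ) + ε + τ) / (1 - θ)`, and of measure zero if `θ + τ + ε < 2 σ - 1`, such that for all `α` outside `E` and all large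
`k`: for ALL zeros `ρ = β + iγ` of zeta with `β ≥ σ`, `γ > 0` and `|γ - v_k α| ≤ (v_k) ^ θ`, the closed disc with centre
`1 + iγ` and radius `1 - β + δ` contains more than `η log γ` zeros, with multiplicity. The exponent of convergence of
`b ^ k`, `b > 1`, is at most `0`, that of `(k + 1) ^ A` is at most `1 / A`. -/
theorem result (ε δ : ℝ) (hε : 0 < ε) (hδ : 0 < δ) :
    (∃ η : ℝ, 0 < η ∧ ∀ σ : ℝ, 1 / 2 ≤ σ → σ ≤ 1 → ∀ (v : ℕ → ℝ) (τ θ : ℝ), (∀ k, 1 ≤ v k) → 0 ≤ τ → ExpLe v τ →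
      θ < 1 →
      ∃ E : Set ℝ, dimH E ≤ ENNReal.ofReal ((2 * (1 - σ) + ε + τ) / (1 - θ)) ∧
        (θ + τ + ε < 2 * σ - 1 → volume E = 0) ∧
        ∀ α : ℝ, α ∉ E → ∃ k₀ : ℕ, ∀ k : ℕ, k₀ ≤ k → ∀ ρ : ℂ, riemannZeta ρ = 0 → σ ≤ ρ.re → 0 < ρ.im →
          |ρ.im - v k * α| ≤ (v k) ^ θ → η * Real.log ρ.im < count (near δ ρ)) ∧
    (∀ b : ℝ, 1 < b → ExpLe (fun k : ℕ => b ^ k) 0) ∧
    (∀ A : ℝ, 0 < A → ExpLe (fun k : ℕ => ((k : ℝ) + 1) ^ A) (1 / A)) := by
  refine ⟨?_, fun b hb => expLe_geom b hb, fun A hA => expLe_pow A hA⟩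
  obtain ⟨η, hη, hthin⟩ := thin ε δ hε hδ
  refine ⟨η, hη, fun σ hσ hσ1 v τ θ hv hτ hE hθ => ?_⟩
  have h1θ : 0 < 1 - θ := by linarith
  have hdim : dimH (BadWin (Iso σ δ η) (fun ρ : ℂ => ρ.im) v θ) ≤
      ENNReal.ofReal ((2 * (1 - σ) + ε + τ) / (1 - θ)) :=
    dim_badWin hv hτ hE (by linarith) hθ (hthin σ hσ hσ1)
  refine ⟨BadWin (Iso σ δ η) (fun ρ : ℂ => ρ.im) v θ, hdim, fun hlt => ?_, fun α hα => ?_⟩
  · refine null_real hdim ?_
    rw [div_lt_one h1θ]
    linarith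
  · by_contra hcon
    apply hα
    intro n1
    push Not at hcon
    obtain ⟨k, hk, ρ, h1, h2, h3, h4, h5⟩ := hcon n1
    refine ⟨k, hk, ρ, ⟨h1, h2, h3, h5⟩, ?_⟩
    rw [Real.norm_eq_abs, smul_eq_mul]
    exact h4

end Pool.Agent.Results.MP_4467b5_nt.IsolatedZerosInWindows
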