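import Pool.Agent.Y757.HW.Top3
import Pool.Agent.Y757.EM.Fin
import Pool.Agent.V35.WP

/-!
# Zeros of zeta right of the critical line in ALL windows near almost every height

The starting theorem `FullWindows` bounds, for a large constant `H`, the measure of the set of `t ≤ T` for which the window
`[t - H/2, t + H/2]` contains at least `η H log T` zeros with real part at least `σ`, by `T ^ (1 - 4 π η (2 σ - 1) + e)`
(the largest possible density is `η = 1 / (4 π)`). Here: for almost every real `α > 0` and all sequences `v_k` (for instance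
`b ^ k`) ALL the windows of length `H` at distance at most `v_k ^ θ` from the height `v_k α` contain fewer than `η H log t`
zeros with real part at least `σ`, if `θ < 4 π η (2 σ - 1)`, with a bound for the dimension of the exceptional `α`. So for
`θ < 2 σ - 1`, the range in which the density hypothesis gives windows without such zeros at almost every height, all
windows contain at most the proportion `θ / (2 σ - 1) + e` of the largest possible density of zeros.
-/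

set_option autoImplicit false

open MeasureTheory Filter Topology

namespace Pool.Agent.Results.MP_4467b5_nt.WindowsNearAlmostEveryHeight

open Pool.Agent.V35.WM Pool.Agent.V35.WP Pool.Agent.Y757.HW

/-- the positive integers `n` with a `t` in `[n, n + 1]` such that the window of length `H` at `t` contains at least
`η H log t` zeros with real part at least `σ` -/
def Bad (σ η H : ℝ) : Set ℤ := {n : ℤ | 1 ≤ n ∧ ∃ t : ℝ, (n : ℝ) ≤ t ∧ t ≤ n + 1 ∧ η * H * Real.log t ≤ N σ t H}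

lemma finite_abs (H : ℕ) : {t : ℤ | |t| ≤ (H : ℤ)}.Finite :=
  (Finset.finite_toSet (Finset.Icc (-(H : ℤ)) H)).subset fun t ht => by
    rw [Finset.mem_coe, Finset.mem_Icc]
    exact abs_le.1 ht

/-- from dyadic ranges to all ranges -/
lemma dyadic (L : Set ℤ) (q B : ℝ) (hq0 : 0 < q) (hB0 : 0 ≤ B)
    (hB : ∀ H : ℕ, 1 ≤ H → ({t : ℤ | t ∈ L ∧ (H : ℝ) / 2 ≤ |(t : ℝ)| ∧ |t| ≤ (H : ℤ)}.ncard : ℝ) ≤ B * (H : ℝ) ^ q) :
    ∃ A : ℝ, 0 ≤ A ∧ ∀ H : ℕ, 1 ≤ H → ({t : ℤ | t ∈ L ∧ |t| ≤ (H : ℤ)}.ncard : ℝ) ≤ A * (H : ℝ) ^ q := by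
  have h2q : (2 : ℝ) ^ (-q) < 1 := Real.rpow_lt_one_of_one_lt_of_neg (by norm_num) (by linarith)
  have h2q0 : 0 < 1 - (2 : ℝ) ^ (-q) := by linarith
  set A : ℝ := B / (1 - 2 ^ (-q)) with hA
  have hA0 : 0 ≤ A := by positivity
  have hAB : A * 2 ^ (-q) + B = A := by
    rw [hA]
    field_simp
    ring
  have key : ∀ H : ℕ, ({t : ℤ | t ∈ L ∧ |t| ≤ (H : ℤ)}.ncard : ℝ) ≤ A * (H : ℝ) ^ q + 1 := by
    intro H
    induction H using Nat.strong_induction_on with
    | _ H ih =>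
      rcases Nat.eq_zero_or_pos H with h0 | hH
      · subst h0
        have hsub : {t : ℤ | t ∈ L ∧ |t| ≤ ((0 : ℕ) : ℤ)} ⊆ {0} := by
          rintro t ⟨-, ht⟩
          have h1 : |t| ≤ 0 := by simpa using ht
          exact abs_nonpos_iff.1 h1
        have h1 := Set.ncard_le_ncard hsub (Set.finite_singleton _)
        rw [Set.ncard_singleton] at h1
        have h2 : (0 : ℝ) ≤ A * ((0 : ℕ) : ℝ) ^ q := by positivity
        have h3 : (({t : ℤ | t ∈ L ∧ |t| ≤ ((0 : ℕ) : ℤ)}.ncard : ℕ) : ℝ) ≤ 1 := by exact_mod_cast h1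
        linarith
      · have hlt : H / 2 < H := by omega
        have h1 := ih (H / 2) hlt
        have h2 := hB H hH
        have hH0 : (0 : ℝ) < H := by exact_mod_cast hH
        have hsub : {t : ℤ | t ∈ L ∧ |t| ≤ (H : ℤ)} ⊆
            {t : ℤ | t ∈ L ∧ |t| ≤ ((H / 2 : ℕ) : ℤ)} ∪
            {t : ℤ | t ∈ L ∧ (H : ℝ) / 2 ≤ |(t : ℝ)| ∧ |t| ≤ (H : ℤ)} := by
          rintro t ⟨ht, hle⟩
          by_cases hs : |t| ≤ ((H / 2 : ℕ) : ℤ)
          · exact Or.inl ⟨ht, hs⟩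
          · refine Or.inr ⟨ht, ?_, hle⟩
            push Not at hs
            have h3 : (H : ℤ) ≤ 2 * |t| := by omega
            have h4 : (H : ℝ) ≤ 2 * |(t : ℝ)| := by
              have : ((H : ℤ) : ℝ) ≤ ((2 * |t| : ℤ) : ℝ) := by exact_mod_cast h3
              push_cast at this
              exact this
            linarith
        have h3 := (Set.ncard_le_ncard hsub (((finite_abs (H / 2)).subset fun t ht => ht.2).union
          ((finite_abs H).subset fun t ht => ht.2.2))).trans (Set.ncard_union_le _ _)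
        have h4 : (((H / 2 : ℕ) : ℝ)) ^ q ≤ (H : ℝ) ^ q * 2 ^ (-q) := by
          have h5 : (((H / 2 : ℕ) : ℝ)) ≤ (H : ℝ) / 2 := Nat.cast_div_le
          calc (((H / 2 : ℕ) : ℝ)) ^ q ≤ ((H : ℝ) / 2) ^ q := Real.rpow_le_rpow (Nat.cast_nonneg _) h5 hq0.le
            _ = (H : ℝ) ^ q * 2 ^ (-q) := by
                rw [Real.div_rpow hH0.le two_pos.le, Real.rpow_neg two_pos.le, div_eq_mul_inv]
        calc ({t : ℤ | t ∈ L ∧ |t| ≤ (H : ℤ)}.ncard : ℝ)
            ≤ ({t : ℤ | t ∈ L ∧ |t| ≤ ((H / 2 : ℕ) : ℤ)}.ncard : ℝ) +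
              ({t : ℤ | t ∈ L ∧ (H : ℝ) / 2 ≤ |(t : ℝ)| ∧ |t| ≤ (H : ℤ)}.ncard : ℝ) := by exact_mod_cast h3
          _ ≤ (A * (((H / 2 : ℕ) : ℝ)) ^ q + 1) + B * (H : ℝ) ^ q := add_le_add h1 h2
          _ ≤ (A * ((H : ℝ) ^ q * 2 ^ (-q)) + 1) + B * (H : ℝ) ^ q := by
              have := mul_le_mul_of_nonneg_left h4 hA0
              linarith
          _ = (A * 2 ^ (-q) + B) * (H : ℝ) ^ q + 1 := by ring
          _ = A * (H : ℝ) ^ q + 1 := by rw [hAB]
  refine ⟨A + 1, by linarith, fun H hH => (key H).trans ?_⟩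
  have hH1 : (1 : ℝ) ≤ H := by exact_mod_cast hH
  have h1 : (1 : ℝ) ≤ (H : ℝ) ^ q := Real.one_le_rpow hH1 hq0.le
  linarith

/-- the number of integers of a finite set with unit intervals in a set of finite measure -/
lemma card_le_vol (F : Finset ℤ) (U : Set ℝ) (m : ℝ) (hm : 0 ≤ m) (hF : ∀ n ∈ F, Set.Ico (n : ℝ) (n + 1) ⊆ U)
    (hU : volume U ≤ ENNReal.ofReal m) : (F.card : ℝ) ≤ m := by
  have h1 : volume (⋃ n ∈ F, Set.Ico (n : ℝ) (n + 1)) = ∑ n ∈ F, volume (Set.Ico (n : ℝ) ((n : ℝ) + 1)) := by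
    refine measure_biUnion_finset ?_ fun _ _ => measurableSet_Ico
    intro a _ b _ hab
    rw [Function.onFun, Set.disjoint_left]
    rintro x ⟨hx1, hx2⟩ ⟨hx3, hx4⟩
    apply hab
    have h2 : (a : ℝ) < b + 1 := by linarith
    have h3 : (b : ℝ) < a + 1 := by linarith
    have h4 : a < b + 1 := by exact_mod_cast h2
    have h5 : b < a + 1 := by exact_mod_cast h3
    omega
  have h2 : volume (⋃ n ∈ F, Set.Ico (n : ℝ) (n + 1)) = (F.card : ENNReal) := by
    rw [h1]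
    have h3 : ∀ n ∈ F, volume (Set.Ico (n : ℝ) ((n : ℝ) + 1)) = 1 := by
      intro n _
      rw [Real.volume_Ico]
      norm_num
    rw [Finset.sum_congr rfl h3, Finset.sum_const, nsmul_eq_mul, mul_one]
  have h3 : (F.card : ENNReal) ≤ ENNReal.ofReal m := by
    rw [← h2]
    exact (measure_mono (Set.iUnion₂_subset hF)).trans hU
  have h4 : (F.card : ENNReal) = ENNReal.ofReal (F.card : ℝ) := (ENNReal.ofReal_natCast _).symm
  rw [h4] at h3
  exact (ENNReal.ofReal_le_ofReal_iff hm).1 h3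

lemma log_four : Real.log 4 ≤ 3 / 2 := by
  have h1 : Real.log 4 = 2 * Real.log 2 := by
    rw [show (4 : ℝ) = 2 ^ 2 by norm_num, Real.log_pow]
    norm_num
  have h2 := Real.log_two_lt_d9
  rw [h1]
  linarith

lemma thin (σ η e : ℝ) (hσ : 1 / 2 ≤ σ) (hσ1 : σ ≤ 1) (hη : 0 ≤ η) (hη1 : η ≤ 1 / (4 * Real.pi)) (he : 0 < e) :
    ∃ H₀ : ℝ, 1 ≤ H₀ ∧ ∀ H : ℝ, H₀ ≤ H →
      Thin (Bad σ η H) (fun n : ℤ => (n : ℝ)) (1 - 4 * Real.pi * η * (2 * σ - 1) + e) := by
  obtain ⟨H1, hH1, hmeas⟩ := meas_N 2 (by norm_num) Pool.Agent.Y757.EM.hyp2 (e / 4) (by positivity)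
  have hpi := Real.pi_pos
  have hpe : 4 * Real.pi * η ≤ 1 := by
    rw [le_div_iff₀ (by positivity)] at hη1
    linarith
  have hpe0 : 0 ≤ 4 * Real.pi * η := by positivity
  refine ⟨max H1 (16 / e), hH1.trans (le_max_left _ _), fun H hH => ?_⟩
  have hHH1 : H1 ≤ H := (le_max_left _ _).trans hH
  have hHe : 16 / e ≤ H := (le_max_right _ _).trans hH
  have hH0 : 1 ≤ H := hH1.trans hHH1
  obtain ⟨T0, hT0, hm⟩ := hmeas (H + 2) (by linarith)
  obtain ⟨s, hs⟩ : ∃ s, s = 1 - 4 * Real.pi * η * (2 * σ - 1) := ⟨_, rfl⟩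
  have hprod : 4 * Real.pi * η * (2 * σ - 1) ≤ 1 := by nlinarith
  have hprod0 : 0 ≤ 4 * Real.pi * η * (2 * σ - 1) := mul_nonneg hpe0 (by linarith)
  have hs0 : 0 ≤ s := by rw [hs]; linarith
  have hs1 : s ≤ 1 := by rw [hs]; linarith
  rw [← hs]
  -- the dyadic ranges
  obtain ⟨R, hR⟩ : ∃ R : ℝ, R = max T0 (Real.exp (12 / e)) := ⟨_, rfl⟩
  have hRT : T0 ≤ R := by rw [hR]; exact le_max_left _ _
  have hRe : Real.exp (12 / e) ≤ R := by rw [hR]; exact le_max_right _ _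
  have hR1 : 1 ≤ R := hT0.trans hRT
  have hB : ∀ X : ℕ, 1 ≤ X → ({t : ℤ | t ∈ Bad σ η H ∧ (X : ℝ) / 2 ≤ |(t : ℝ)| ∧ |t| ≤ (X : ℤ)}.ncard : ℝ) ≤
      (2 * R + 1 + 2 ^ (1 + e)) * (X : ℝ) ^ (s + e) := by
    intro X hX
    have hX1 : (1 : ℝ) ≤ X := by exact_mod_cast hX
    have hXq : 1 ≤ (X : ℝ) ^ (s + e) := Real.one_le_rpow hX1 (by linarith)
    have h2e : (0 : ℝ) < 2 ^ (1 + e) := by positivity
    have hfin : {t : ℤ | t ∈ Bad σ η H ∧ (X : ℝ) / 2 ≤ |(t : ℝ)| ∧ |t| ≤ (X : ℤ)}.Finite :=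
      (finite_abs X).subset fun t ht => ht.2.2
    by_cases hXR : (X : ℝ) ≤ R
    · have hsub : {t : ℤ | t ∈ Bad σ η H ∧ (X : ℝ) / 2 ≤ |(t : ℝ)| ∧ |t| ≤ (X : ℤ)} ⊆
          (Finset.Icc (-(X : ℤ)) X : Set ℤ) := by
        rintro t ⟨-, -, ht⟩
        rw [Finset.mem_coe, Finset.mem_Icc]
        exact abs_le.1 ht
      have h1 := Set.ncard_le_ncard hsub (Finset.finite_toSet _)
      rw [Set.ncard_coe_finset, Int.card_Icc] at h1
      have h2 : ((X : ℤ) + 1 - -(X : ℤ)).toNat = 2 * X + 1 := by omega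
      rw [h2] at h1
      have h3 : ({t : ℤ | t ∈ Bad σ η H ∧ (X : ℝ) / 2 ≤ |(t : ℝ)| ∧ |t| ≤ (X : ℤ)}.ncard : ℝ) ≤ 2 * X + 1 := by
        exact_mod_cast h1
      nlinarith
    · push Not at hXR
      have hT : T0 ≤ (X : ℝ) + 1 := by linarith
      have hXp : (0 : ℝ) < X := by linarith
      have hTp : (0 : ℝ) < (X : ℝ) + 1 := by linarith
      obtain ⟨L, hL⟩ : ∃ L, L = Real.log ((X : ℝ) + 1) := ⟨_, rfl⟩
      have hLe : 12 / e ≤ L := by
        rw [hL, Real.le_log_iff_exp_le hTp]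
        linarith
      have hL0 : 0 < L := lt_of_lt_of_le (by positivity) hLe
      obtain ⟨η', hη'⟩ : ∃ η' : ℝ, η' = η - e / (16 * Real.pi) := ⟨_, rfl⟩
      have hvol := hm ((X : ℝ) + 1) hT σ η' hσ
      have hcard : ((hfin.toFinset).card : ℝ) ≤
          ((X : ℝ) + 1) ^ (1 - 2 * Real.pi * (2 : ℕ) * η' * (2 * σ - 1) + e / 4) := by
        refine card_le_vol hfin.toFinset _ _ (Real.rpow_nonneg hTp.le _) ?_ hvol
        intro n hn t' ht'
        obtain ⟨⟨hn1, t, ht1, ht2, htN⟩, hn2, hn3⟩ := hfin.mem_toFinset.1 hn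
        have hn1' : (1 : ℝ) ≤ n := by exact_mod_cast hn1
        have hn3' : (n : ℝ) ≤ X := by
          have : n ≤ (X : ℤ) := (le_abs_self n).trans hn3
          exact_mod_cast this
        rw [abs_of_pos (by linarith : (0 : ℝ) < n)] at hn2
        refine ⟨by linarith [ht'.1], by linarith [ht'.2], ?_⟩
        have hmono : N σ t H ≤ N σ t' (H + 2) := by
          apply N_mono
          have : |t - t'| ≤ 1 := abs_le.2 ⟨by linarith [ht'.2], by linarith [ht'.1]⟩
          linarith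
        refine le_trans ?_ (htN.trans hmono)
        -- the logarithm
        have hlogt : L - Real.log 4 ≤ Real.log t := by
          rw [hL, ← Real.log_div hTp.ne' (by norm_num)]
          apply Real.log_le_log (by positivity)
          linarith
        rw [← hL]
        have hl4 := log_four
        have h1 : η * H * (L - Real.log 4) ≤ η * H * Real.log t :=
          mul_le_mul_of_nonneg_left hlogt (by positivity)
        refine le_trans ?_ h1
        -- `η' (H + 2) L ≤ η H (L - log 4)`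
        have hpη : η ≤ 1 / (4 * Real.pi) := hη1
        have h2 : 16 ≤ e * H := by
          rw [div_le_iff₀ he] at hHe
          linarith
        have h3 : 12 ≤ e * L := by
          rw [div_le_iff₀ he] at hLe
          linarith
        have h4 : (2 * L + H * Real.log 4) * (4 * Real.pi * η) ≤ e / 4 * (H + 2) * L := by
          have h5 : 0 ≤ 2 * L + H * Real.log 4 := by
            have : 0 ≤ Real.log 4 := Real.log_nonneg (by norm_num)
            positivity
          have h6 : (2 * L + H * Real.log 4) * (4 * Real.pi * η) ≤ (2 * L + H * Real.log 4) * 1 :=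
            mul_le_mul_of_nonneg_left hpe h5
          have h7 : 2 * L ≤ e * H * L / 8 := by nlinarith
          have h8 : H * Real.log 4 ≤ e * H * L / 8 := by
            have h9 : H * Real.log 4 ≤ H * (3 / 2) := mul_le_mul_of_nonneg_left hl4 (by linarith)
            nlinarith
          have h10 : 0 ≤ e * L := by positivity
          nlinarith
        have h5 : η' * (H + 2) * L = η * (H + 2) * L - e / (16 * Real.pi) * ((H + 2) * L) := by rw [hη']; ring
        have h6 : (2 * L + H * Real.log 4) * η ≤ e / (16 * Real.pi) * ((H + 2) * L) := by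
          have h7 : e / (16 * Real.pi) * ((H + 2) * L) = (e / 4 * (H + 2) * L) / (4 * Real.pi) := by
            field_simp
            ring
          rw [h7, le_div_iff₀ (by positivity)]
          linarith
        rw [h5]
        nlinarith
      rw [Set.ncard_eq_toFinset_card _ hfin]
      refine hcard.trans ?_
      have hexp : 1 - 2 * Real.pi * (2 : ℕ) * η' * (2 * σ - 1) + e / 4 ≤ s + e := by
        rw [hη', hs]
        push_cast
        have h1 : 2 * Real.pi * 2 * (η - e / (16 * Real.pi)) * (2 * σ - 1) =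
            4 * Real.pi * η * (2 * σ - 1) - e / 4 * (2 * σ - 1) := by
          field_simp
          ring
        rw [h1]
        nlinarith
      calc ((X : ℝ) + 1) ^ (1 - 2 * Real.pi * (2 : ℕ) * η' * (2 * σ - 1) + e / 4)
          ≤ ((X : ℝ) + 1) ^ (s + e) := Real.rpow_le_rpow_of_exponent_le (by linarith) hexp
        _ ≤ (2 * (X : ℝ)) ^ (s + e) := Real.rpow_le_rpow hTp.le (by linarith) (by linarith)
        _ = 2 ^ (s + e) * (X : ℝ) ^ (s + e) := Real.mul_rpow (by norm_num) hXp.le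
        _ ≤ 2 ^ (1 + e) * (X : ℝ) ^ (s + e) := by
            apply mul_le_mul_of_nonneg_right _ (by positivity)
            exact Real.rpow_le_rpow_of_exponent_le (by norm_num) (by linarith)
        _ ≤ (2 * R + 1 + 2 ^ (1 + e)) * (X : ℝ) ^ (s + e) := by
            apply mul_le_mul_of_nonneg_right _ (by positivity)
            linarith
  obtain ⟨A, hA0, hA⟩ := dyadic (Bad σ η H) (s + e) (2 * R + 1 + 2 ^ (1 + e)) (by linarith) (by positivity) hB
  intro ε hε
  refine ⟨A, fun X hX => ?_⟩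
  have hX0 : 0 ≤ X := by linarith
  have hH' : 1 ≤ ⌊X⌋₊ := Nat.le_floor (by exact_mod_cast hX)
  have hsub : {t | t ∈ Bad σ η H ∧ ‖(t : ℝ)‖ ≤ X} ⊆ {t : ℤ | t ∈ Bad σ η H ∧ |t| ≤ ((⌊X⌋₊ : ℕ) : ℤ)} := by
    rintro t ⟨ht, hle⟩
    refine ⟨ht, ?_⟩
    rw [Real.norm_eq_abs] at hle
    have h4 : ((t.natAbs : ℕ) : ℝ) ≤ X := by
      rw [Nat.cast_natAbs]
      push_cast
      exact hle
    have h5 : t.natAbs ≤ ⌊X⌋₊ := Nat.le_floor h4
    rw [Int.abs_eq_natAbs]
    exact_mod_cast h5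
  have hfin : {t : ℤ | t ∈ Bad σ η H ∧ |t| ≤ ((⌊X⌋₊ : ℕ) : ℤ)}.Finite :=
    (finite_abs ⌊X⌋₊).subset fun t ht => ht.2
  refine ⟨hfin.subset hsub, ?_⟩
  calc ({t | t ∈ Bad σ η H ∧ ‖(t : ℝ)‖ ≤ X}.ncard : ℝ)
      ≤ ({t : ℤ | t ∈ Bad σ η H ∧ |t| ≤ ((⌊X⌋₊ : ℕ) : ℤ)}.ncard : ℝ) := by
        exact_mod_cast Set.ncard_le_ncard hsub hfin
    _ ≤ A * ((⌊X⌋₊ : ℕ) : ℝ) ^ (s + e) := hA _ hH'
    _ ≤ A * X ^ (s + e) :=
        mul_le_mul_of_nonneg_left (Real.rpow_le_rpow (Nat.cast_nonneg _) (Nat.floor_le hX0) (by linarith)) hA0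
    _ ≤ A * X ^ (s + e + ε) :=
        mul_le_mul_of_nonneg_left (Real.rpow_le_rpow_of_exponent_le hX (by linarith)) hA0

/-- **Theorem.** Let `1/2 ≤ σ ≤ 1`, `0 ≤ η ≤ 1 / (4 π)` and `e > 0`. There is `H₀` such that for all `H ≥ H₀`, all
sequences `v ≥ 1` of exponent of convergence at most `τ ≥ 0` and all `0 ≤ θ < 1` there is a set `E` of real numbers of
Hausdorff dimension at most `(1 - 4 π η (2 σ - 1) + e + τ) / (1 - θ)`, and of measure zero if
`θ + τ + e < 4 π η (2 σ - 1)`, such that for all `α > 0` outside `E` and all large `k`: for ALL real `t` with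
`|t - v_k α| ≤ (v_k) ^ θ` there are fewer than `η H log t` zeros of `ζ`, with multiplicity, with real part at least `σ` and
imaginary part at distance at most `H / 2` from `t`. The exponent of convergence of `b ^ k`, `b > 1`, is at most `0`, that
of `(k + 1) ^ A` is at most `1 / A`. -/
theorem result (σ η e : ℝ) (hσ : 1 / 2 ≤ σ) (hσ1 : σ ≤ 1) (hη : 0 ≤ η) (hη1 : η ≤ 1 / (4 * Real.pi)) (he : 0 < e) :
    (∃ H₀ : ℝ, 1 ≤ H₀ ∧ ∀ H : ℝ, H₀ ≤ H → ∀ (v : ℕ → ℝ) (τ θ : ℝ), (∀ k, 1 ≤ v k) → 0 ≤ τ → ExpLe v τ →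
      0 ≤ θ → θ < 1 →
      ∃ E : Set ℝ, dimH E ≤ ENNReal.ofReal ((1 - 4 * Real.pi * η * (2 * σ - 1) + e + τ) / (1 - θ)) ∧
        (θ + τ + e < 4 * Real.pi * η * (2 * σ - 1) → volume E = 0) ∧
        ∀ α : ℝ, 0 < α → α ∉ E → ∃ k₀ : ℕ, ∀ k : ℕ, k₀ ≤ k → ∀ t : ℝ, |t - v k * α| ≤ (v k) ^ θ →
          N σ t H < η * H * Real.log t) ∧
    (∀ b : ℝ, 1 < b → ExpLe (fun k : ℕ => b ^ k) 0) ∧
    (∀ A : ℝ, 0 < A → ExpLe (fun k : ℕ => ((k : ℝ) + 1) ^ A) (1 / A)) := by
  refine ⟨?_, fun b hb => expLe_geom b hb, fun A hA => expLe_pow A hA⟩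
  obtain ⟨H₀, hH₀, hthin⟩ := thin σ η (e / 2) hσ hσ1 hη hη1 (by positivity)
  refine ⟨H₀, hH₀, fun H hH v τ θ hv hτ hE hθ0 hθ => ?_⟩
  have hpi := Real.pi_pos
  have hpe : 4 * Real.pi * η ≤ 1 := by
    rw [le_div_iff₀ (by positivity)] at hη1
    linarith
  have hpe0 : 0 ≤ 4 * Real.pi * η := by positivity
  obtain ⟨s, hs⟩ : ∃ s, s = 1 - 4 * Real.pi * η * (2 * σ - 1) := ⟨_, rfl⟩
  have hprod : 4 * Real.pi * η * (2 * σ - 1) ≤ 1 := by nlinarith
  have hs0 : 0 ≤ s := by rw [hs]; linarith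
  have h1θ : 0 < 1 - θ := by linarith
  have hset : 0 < s + e + τ := by linarith
  obtain ⟨δ, hδ⟩ : ∃ δ, δ = (1 - θ) * (e / 2 / (s + e + τ)) := ⟨_, rfl⟩
  have hδ0 : 0 < δ := by rw [hδ]; positivity
  have hδ1 : 1 - (θ + δ) = (1 - θ) * ((s + e / 2 + τ) / (s + e + τ)) := by
    rw [hδ]
    field_simp
    ring
  have hθδ : θ + δ < 1 := by
    have : 0 < 1 - (θ + δ) := by
      rw [hδ1]
      have : 0 < s + e / 2 + τ := by linarith
      positivity
    linarith
  have hdim0 := dim_badWin hv hτ hE (by rw [← hs]; linarith) hθδ (hthin H hH)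
  rw [← hs] at hdim0
  have hquot : (s + e / 2 + τ) / (1 - (θ + δ)) = (s + e + τ) / (1 - θ) := by
    rw [hδ1]
    have h1 : s + e / 2 + τ ≠ 0 := by linarith
    field_simp
  rw [hquot] at hdim0
  rw [← hs]
  refine ⟨BadWin (Bad σ η H) (fun n : ℤ => (n : ℝ)) v (θ + δ), hdim0, fun hlt => ?_, fun α hα0 hα => ?_⟩
  · refine null_real hdim0 ?_
    rw [div_lt_one h1θ, hs]
    linarith
  · by_contra hcon
    apply hα
    push Not at hcon
    intro n1
    -- `v` tends to infinity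
    have hvt := tendsto_of_expLe (fun k => by linarith [hv k]) hτ hE
    have h1 : ∀ᶠ k in atTop, (2 : ℝ) ≤ (v k) ^ δ := by
      have := (tendsto_rpow_atTop hδ0).comp hvt
      exact this.eventually_ge_atTop 2
    have h2 : ∀ᶠ k in atTop, (2 : ℝ) / α ≤ (v k) ^ (1 - θ) := by
      have := (tendsto_rpow_atTop h1θ).comp hvt
      exact this.eventually_ge_atTop _
    have h3 : ∀ᶠ k in atTop, (4 : ℝ) / α ≤ v k := hvt.eventually_ge_atTop _
    obtain ⟨n2, hn2⟩ := eventually_atTop.1 (h1.and (h2.and h3))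
    obtain ⟨k, hk, t, ht, hN⟩ := hcon (max n1 n2)
    obtain ⟨g1, g2, g3⟩ := hn2 k ((le_max_right _ _).trans hk)
    have hv0 : 0 < v k := by linarith [hv k]
    have hvθ : 1 ≤ (v k) ^ θ := Real.one_le_rpow (hv k) hθ0
    refine ⟨k, (le_max_left _ _).trans hk, ⌊t⌋, ⟨?_, t, Int.floor_le t, (Int.lt_floor_add_one t).le, hN⟩, ?_⟩
    · -- `t ≥ 1`
      apply Int.le_floor.2
      push_cast
      have h4 : (v k) ^ θ * (v k) ^ (1 - θ) = v k := by
        rw [← Real.rpow_add hv0, add_sub_cancel, Real.rpow_one]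
      have h5 : 2 * (v k) ^ θ ≤ v k * α := by
        rw [div_le_iff₀ hα0] at g2
        calc 2 * (v k) ^ θ ≤ ((v k) ^ (1 - θ) * α) * (v k) ^ θ := mul_le_mul_of_nonneg_right g2 (by linarith)
          _ = ((v k) ^ θ * (v k) ^ (1 - θ)) * α := by ring
          _ = v k * α := by rw [h4]
      have h6 : 4 ≤ v k * α := by
        rw [div_le_iff₀ hα0] at g3
        exact g3
      have h7 := (abs_le.1 ht).1
      linarith
    · rw [Real.norm_eq_abs, smul_eq_mul, Real.rpow_add hv0]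
      have h4 : |(⌊t⌋ : ℝ) - v k * α| ≤ (v k) ^ θ + 1 := by
        have h5 : |(⌊t⌋ : ℝ) - t| ≤ 1 := by
          rw [abs_le]
          constructor <;> linarith [Int.floor_le t, Int.lt_floor_add_one t]
        calc |(⌊t⌋ : ℝ) - v k * α| = |((⌊t⌋ : ℝ) - t) + (t - v k * α)| := by ring_nf
          _ ≤ |(⌊t⌋ : ℝ) - t| + |t - v k * α| := abs_add_le _ _
          _ ≤ (v k) ^ θ + 1 := by linarith
      nlinarith

end Pool.Agent.Results.MP_4467b5_nt.WindowsNearAlmostEveryHeight
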