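import Pool.Agent.V11001.SI.Off

/-!
# No zeros off the critical line near the powers of almost every real number

Unconditionally, let `τ > 0` and `ν n / log n → ∞`, for example `ν n = n`. For the Riemann zeta function and all primitive
Dirichlet L-functions there are `θ > 0` and a set `E` of Hausdorff dimension less than one such that for each `x > 1`
outside `E` and all large `n`, `T = x ^ (ν n)`, ALL nontrivial zeros `ρ` with `|Im ρ - T| ≤ T ^ θ` satisfy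
`|Re ρ - 1 / 2| ≤ τ`. For almost all `x` this holds for all `τ > 0` and all primitive characters of all moduli at once. So the
Riemann hypothesis holds up to an arbitrarily small loss, and with it the density hypothesis, near the powers of almost every
real number.
-/

set_option autoImplicit false

open Filter Topology MeasureTheory

namespace Pool.Agent.Results.MP_4467b5_nt.ZerosNearPowers

open Pool.Agent.V11001.KM Pool.Agent.V11001.SI

/-- all zeros `ρ` of `F` in the critical strip with `|Im ρ - T| ≤ T ^ θ` satisfy `|Re ρ - 1 / 2| ≤ τ` -/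
def NearLine (F : ℂ → ℂ) (τ θ T : ℝ) : Prop :=
  ∀ ρ : ℂ, F ρ = 0 → 0 < ρ.re → ρ.re < 1 → |ρ.im - T| ≤ T ^ θ → |ρ.re - 1 / 2| ≤ τ

/-- modulus `1`: the Riemann zeta function -/
theorem zeta_case (χ : DirichletCharacter ℂ 1) :
    χ.IsPrimitive ∧ DirichletCharacter.LFunction χ = riemannZeta := by
  refine ⟨?_, DirichletCharacter.LFunction_modOne_eq⟩
  rw [DirichletCharacter.level_one' χ rfl]
  exact DirichletCharacter.isPrimitive_one_level_one

lemma bz_prim {q : ℕ} [NeZero q] (χ : DirichletCharacter ℂ q) (hχ : χ.IsPrimitive) {τ : ℝ} (hτ : 0 < τ) (hτ1 : τ ≤ 1) :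
    Pool.Agent.TH822.DZ.BZr (DirichletCharacter.LFunction χ) τ := by
  rcases eq_or_ne χ 1 with h | h
  · have hq : q = 1 := by
      rw [h, DirichletCharacter.IsPrimitive, DirichletCharacter.conductor_one] at hχ
      exact hχ.symm
    subst hq
    rw [DirichletCharacter.LFunction_modOne_eq]
    exact Pool.Agent.TH822.AA.bz_z τ hτ hτ1
  · exact Pool.Agent.TH822.AA.bz_d χ hχ h τ hτ hτ1

theorem one {q : ℕ} [NeZero q] (χ : DirichletCharacter ℂ q) (hχ : χ.IsPrimitive) {τ : ℝ} (hτ : 0 < τ) :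
    ∃ s θ : ℝ, s < 1 ∧ 0 < θ ∧ ∀ ν : ℕ → ℝ, Fast ν → ∀ U : Set ℝ, U.Countable →
      ∃ E : Set ℝ, dimH E ≤ ENNReal.ofReal s ∧ ∀ x : ℝ, 1 < x → x ∉ E → ∀ β ∈ U, 0 < β → ∃ n₀ : ℕ, ∀ n : ℕ, n₀ ≤ n →
        NearLine (DirichletCharacter.LFunction χ) τ θ (β * x ^ ν n) := by
  obtain ⟨s, θ, -, hs1, hθ, -, h⟩ := off (H370.good_dirichlet χ hχ)
    (bz_prim χ hχ (τ := min τ 1) (lt_min hτ one_pos) (min_le_right _ _))
  refine ⟨s, θ, hs1, hθ, fun ν hν U hU => ?_⟩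
  obtain ⟨E, hE1, hE2⟩ := h ν hν U hU
  refine ⟨E, hE1, fun x hx hxE β hβ hβ0 => ?_⟩
  obtain ⟨n₀, hn₀⟩ := hE2 x hx hxE β hβ hβ0
  exact ⟨n₀, fun n hn ρ h1 h2 h3 h4 => (hn₀ n hn ρ h1 h2 h3 h4).trans (min_le_left _ _)⟩

lemma null_of_dim {E : Set ℝ} {s : ℝ} (hs : s < 1) (h : dimH E ≤ ENNReal.ofReal s) : volume E = 0 := by
  rw [← hausdorffMeasure_real]
  refine hausdorffMeasure_of_dimH_lt (d := 1) ?_
  refine h.trans_lt ?_
  have g4 := (ENNReal.ofReal_lt_one).2 hs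
  simpa using g4

/-- **Theorem.** (1) For every primitive Dirichlet character `χ` and `τ > 0` there are `s < 1` and `θ > 0` such that for all
`ν` with `ν n / log n → ∞` and all countable sets `U` there is a set `E` of Hausdorff dimension at most `s` such that for
each `x > 1` outside `E` and each positive `β` in `U` for all large `n` all zeros of `L(s, χ)` in the critical strip with
ordinate at a distance at most `T ^ θ` from `T = β x ^ (ν n)` have real part in `[1 / 2 - τ, 1 / 2 + τ]`. (2) For all such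
`ν` and `U` and almost all `x > 1`: for all moduli, all primitive `χ` and all `τ > 0` there is `θ > 0` such that the same
holds for each positive `β` in `U`. -/
theorem result :
    (∀ (q : ℕ) [NeZero q] (χ : DirichletCharacter ℂ q), χ.IsPrimitive → ∀ τ : ℝ, 0 < τ →
      ∃ s θ : ℝ, s < 1 ∧ 0 < θ ∧ ∀ ν : ℕ → ℝ, Fast ν → ∀ U : Set ℝ, U.Countable →
        ∃ E : Set ℝ, dimH E ≤ ENNReal.ofReal s ∧ ∀ x : ℝ, 1 < x → x ∉ E → ∀ β ∈ U, 0 < β → ∃ n₀ : ℕ, ∀ n : ℕ, n₀ ≤ n →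
          NearLine (DirichletCharacter.LFunction χ) τ θ (β * x ^ ν n)) ∧
    (∀ ν : ℕ → ℝ, Fast ν → ∀ U : Set ℝ, U.Countable → ∀ᵐ x : ℝ, 1 < x →
      ∀ (q : ℕ) [NeZero q] (χ : DirichletCharacter ℂ q), χ.IsPrimitive → ∀ τ : ℝ, 0 < τ → ∃ θ : ℝ, 0 < θ ∧
        ∀ β ∈ U, 0 < β → ∃ n₀ : ℕ, ∀ n : ℕ, n₀ ≤ n →
          NearLine (DirichletCharacter.LFunction χ) τ θ (β * x ^ ν n)) := by
  refine ⟨fun q _ χ hχ τ hτ => one χ hχ hτ, fun ν hν U hU => ?_⟩
  have key : ∀ j : (Σ q : ℕ+, {χ : DirichletCharacter ℂ (q : ℕ) // χ.IsPrimitive}) × ℕ, ∃ θ : ℝ, 0 < θ ∧ ∃ E : Set ℝ,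
      volume E = 0 ∧ ∀ x : ℝ, 1 < x → x ∉ E → ∀ β ∈ U, 0 < β → ∃ n₀ : ℕ, ∀ n : ℕ, n₀ ≤ n →
        NearLine (DirichletCharacter.LFunction j.1.2.1) (1 / ((j.2 : ℝ) + 1)) θ (β * x ^ ν n) := by
    intro j
    haveI : NeZero ((j.1.1 : ℕ+) : ℕ) := ⟨j.1.1.ne_zero⟩
    obtain ⟨s, θ, hs, hθ, h⟩ := one j.1.2.1 j.1.2.2 (τ := 1 / ((j.2 : ℝ) + 1)) (by positivity)
    obtain ⟨E, hE1, hE2⟩ := h ν hν U hU
    exact ⟨θ, hθ, E, null_of_dim hs hE1, hE2⟩
  choose θ hθ E hE1 hE2 using key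
  haveI : ∀ q : ℕ+, Countable {χ : DirichletCharacter ℂ (q : ℕ) // χ.IsPrimitive} := by
    intro q
    haveI : NeZero ((q : ℕ+) : ℕ) := ⟨q.ne_zero⟩
    infer_instance
  have hae : ∀ᵐ x : ℝ, ∀ j, x ∉ E j := by
    rw [ae_all_iff]
    intro j
    exact compl_mem_ae_iff.2 (hE1 j)
  filter_upwards [hae] with x hx hx1 q hq χ hχ τ hτ
  obtain ⟨k, hk⟩ := exists_nat_one_div_lt hτ
  set j : (Σ q : ℕ+, {χ : DirichletCharacter ℂ (q : ℕ) // χ.IsPrimitive}) × ℕ :=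
    (⟨⟨q, Nat.pos_of_ne_zero hq.out⟩, ⟨χ, hχ⟩⟩, k) with hj
  refine ⟨θ j, hθ j, fun β hβ hβ0 => ?_⟩
  obtain ⟨n₀, hn₀⟩ := hE2 j x hx1 (hx j) β hβ hβ0
  exact ⟨n₀, fun n hn ρ h1 h2 h3 h4 => (hn₀ n hn ρ h1 h2 h3 h4).trans hk.le⟩

end Pool.Agent.Results.MP_4467b5_nt.ZerosNearPowers
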